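import Pool.Agent.J4H75.NC.Stm

/-! Project NC (helper75), piece CHN (helper98): irredundant sets generate big subgroups. -/

set_option autoImplicit false

namespace Pool.Agent.J4H98.NC

open Pool.Agent.J4H75.NC

theorem t_CHN : S_CHN := by
  intro G _ _ N X
  classical
  induction X using Finset.induction_on with
  | empty =>
    intro _
    simp only [Finset.card_empty, pow_zero, mul_one, Finset.coe_empty, Set.union_empty,
      Subgroup.closure_eq]
    exact le_rfl
  | insert y X hy ih =>
    intro h
    -- the irredundance passes to `X`
    have hX : ∀ x ∈ X, x ∉ Subgroup.closure ((N : Set G) ∪ ((X : Set G) \ {x})) := by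
      intro x hx hmem
      apply h x (Finset.mem_insert_of_mem hx)
      refine Subgroup.closure_mono ?_ hmem
      intro z hz
      rcases hz with hz | ⟨hz, hzx⟩
      · exact Or.inl hz
      · refine Or.inr ⟨?_, hzx⟩
        rw [Finset.coe_insert]
        exact Set.mem_insert_of_mem _ hz
    have h1 := ih hX
    set K := Subgroup.closure ((N : Set G) ∪ (X : Set G)) with hK
    set L := Subgroup.closure ((N : Set G) ∪ ((insert y X : Finset G) : Set G)) with hL
    have hKL : K ≤ L := by
      refine Subgroup.closure_mono ?_
      intro z hz
      rcases hz with hz | hz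
      · exact Or.inl hz
      · right
        rw [Finset.coe_insert]
        exact Set.mem_insert_of_mem _ hz
    have hyL : y ∈ L := by
      refine Subgroup.subset_closure (Or.inr ?_)
      rw [Finset.coe_insert]
      exact Set.mem_insert _ _
    have hyK : y ∉ K := by
      intro hmem
      apply h y (Finset.mem_insert_self y X)
      have e : ((insert y X : Finset G) : Set G) \ {y} = (X : Set G) := by
        ext z
        simp only [Finset.coe_insert, Set.mem_sdiff, Set.mem_insert_iff, Finset.mem_coe,
          Set.mem_singleton_iff]
        constructor
        · rintro ⟨h1 | h1, h2⟩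
          · exact absurd h1 h2
          · exact h1
        · intro hz
          exact ⟨Or.inr hz, fun h => hy (h ▸ hz)⟩
      rw [e]
      exact hmem
    -- Lagrange
    have h2 : 2 * Nat.card K ≤ Nat.card L := by
      have e1 : K.relIndex L * Nat.card K = Nat.card L := by
        have h3 := Subgroup.relIndex_mul_index hKL
        have h4 := K.card_mul_index
        have h5 := L.card_mul_index
        have h6 : 0 < L.index := Nat.pos_of_ne_zero L.index_ne_zero_of_finite
        have h7 : (K.relIndex L * Nat.card K) * L.index = Nat.card L * L.index := by
          rw [h5, ← h4, ← h3]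
          ring
        exact Nat.eq_of_mul_eq_mul_right h6 h7
      have e2 : K.relIndex L ≠ 0 := by
        intro h0
        rw [h0, zero_mul] at e1
        exact absurd e1.symm (Nat.card_pos (α := L)).ne'
      have e3 : K.relIndex L ≠ 1 := by
        intro h1
        rw [Subgroup.relIndex_eq_one] at h1
        exact hyK (h1 hyL)
      have e4 : 2 ≤ K.relIndex L := by omega
      calc 2 * Nat.card K ≤ K.relIndex L * Nat.card K := Nat.mul_le_mul_right _ e4
        _ = Nat.card L := e1
    rw [Finset.card_insert_of_notMem hy]
    calc Nat.card N * 2 ^ (X.card + 1) = 2 * (Nat.card N * 2 ^ X.card) := by ring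
      _ ≤ 2 * Nat.card K := Nat.mul_le_mul_left _ h1
      _ ≤ Nat.card L := h2

end Pool.Agent.J4H98.NC
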